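import Mathlib
import Pool.Agent.helper82.CycF

set_option autoImplicit false

namespace Pool.Agent.helper82.Cyc

open Polynomial

lemma goodB : Good [3, 5, 41, 191] where
  pr := by
    intro p hp
    fin_cases hp
    · exact ⟨by norm_num, by decide⟩
    · exact ⟨by norm_num, by decide⟩
    · exact ⟨by norm_num, by decide⟩
    · exact ⟨by norm_num, by decide⟩
  nd := by decide

lemma oddB : OddL qB := by
  rw [← qB_eq]; exact odd_plmi _ (fun p hp => (goodB.pr p hp).2)

lemma lenB : qB.1.length = qB.2.length := rfl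

lemma pos_S {x : ℝ} (s : Bool) (a : ℕ) (l : List ℕ) (hl : l ≠ [])
    (h : chain SC0 (MLo W0) (MHi W0) okT W0 (cond s qB qB.swap) a l = true)
    (h1 : (a : ℝ) / 2 ^ 40 ≤ x) (h2 : x ≤ (l.getLast hl : ℝ) / 2 ^ 40) (hx1 : x < 1)
    (hz : eval x (derivative (cyclotomic ([3, 5, 41, 191] : List ℕ).prod ℝ)) = 0) (hx0 : 0 < x) :
    False := by
  have := (goodB.deriv_eq_zero_iff hx1.ne hx0.ne').1 hz
  rw [qB_eq, S_g_eq oddB lenB hx0.le hx1] at this
  exact nz_of_chain hWS0 (kitM hW0) oddB s a l hl h h1 h2 this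

lemma neg_S {y : ℝ} (s : Bool) (a : ℕ) (l : List ℕ) (hl : l ≠ [])
    (h : chain SC0 (VLo W0) (VHi W0) okT W0 (cond s qB qB.swap) a l = true)
    (h1 : (a : ℝ) / 2 ^ 40 ≤ y) (h2 : y ≤ (l.getLast hl : ℝ) / 2 ^ 40)
    (hz : eval (-y) (derivative (cyclotomic ([3, 5, 41, 191] : List ℕ).prod ℝ)) = 0) (hy0 : 0 < y) :
    False := by
  have := (goodB.deriv_eq_zero_iff (x := -y) (by linarith) (by linarith)).1 hz
  rw [qB_eq, S_g_neg oddB] at this
  exact nz_of_chain hWS0 (kitV hW0) oddB s a l hl h h1 h2 this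

lemma pos_D {x : ℝ} (s : Bool) (a : ℕ) (l : List ℕ) (hl : l ≠ []) (ha : 0 < a)
    (hlast : l.getLast hl < 2 ^ 40)
    (h : chain SC0 (DLo W0) (DHi W0) (okD W0) (W0 - 1) (cond s qB qB.swap) a l = true)
    (h1 : (a : ℝ) / 2 ^ 40 ≤ x) (h2 : x ≤ (l.getLast hl : ℝ) / 2 ^ 40) :
    x ≠ 1 ∧ x ≠ 0 ∧ S (Cyc.h x) (plmi [3, 5, 41, 191]) ≠ 0 := by
  have hx0 : 0 < x := lt_of_lt_of_le (by positivity) h1
  have hx1 : x < 1 := by
    refine lt_of_le_of_lt h2 ?_
    rw [div_lt_one (by positivity)]; exact_mod_cast hlast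
  refine ⟨hx1.ne, hx0.ne', ?_⟩
  rw [qB_eq]
  exact nz_of_chain hWS0 (kitD hW0) oddB s a l hl h h1 h2

lemma neg_D {x : ℝ} (s : Bool) (a : ℕ) (l : List ℕ) (hl : l ≠ []) (ha : 0 < a)
    (h : chain SC0 (ELo W0) (EHi W0) (okE W0) W0 (cond s qB qB.swap) a l = true)
    (h1 : -((l.getLast hl : ℝ) / 2 ^ 40) ≤ x) (h2 : x ≤ -((a : ℝ) / 2 ^ 40)) :
    x ≠ 1 ∧ x ≠ 0 ∧ S (Cyc.h x) (plmi [3, 5, 41, 191]) ≠ 0 := by
  have hx0 : x < 0 := lt_of_le_of_lt h2 (by
    have : 0 < (a : ℝ) / 2 ^ 40 := by positivity
    linarith)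
  refine ⟨by linarith, hx0.ne, ?_⟩
  rw [qB_eq]
  have h3 : x = -(-x) := by ring
  rw [h3, S_h_neg oddB]
  have := nz_of_chain hWS0 (kitE hW0) oddB s a l hl h (x := -x) (by linarith) (by linarith)
  exact neg_ne_zero.2 this

lemma nearB : Near 117465 (1 / 2) 2 := by
  have h1 : Near (1 * 191) _ _ := near_mul (p := 191) (e := 1 / 1000) (by decide) (by norm_num)
    (by decide) (by norm_num) (by norm_num) (by norm_num) near_one
  have h2 : Near (1 * 191 * 41) _ _ := near_mul (p := 41) (e := 1 / 1000) (by decide) (by norm_num)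
    (by decide) (by norm_num) (by norm_num) (by norm_num) h1
  have h3 : Near (1 * 191 * 41 * 5) _ _ := near_mul (p := 5) (e := 5 / 256) (by decide)
    (by norm_num) (by decide) (by norm_num) (by norm_num) (by norm_num) h2
  have h4 : Near (1 * 191 * 41 * 5 * 3) _ _ := near_mul (p := 3) (e := 3 / 16) (by decide)
    (by norm_num) (by decide) (by norm_num) (by norm_num) (by norm_num) h3
  intro x hx
  have h5 := h4 x hx
  have h0 := abs_nonneg x
  have e : 1 * 191 * 41 * 5 * 3 = 117465 := by norm_num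
  rw [e] at h5
  constructor
  · refine le_trans ?_ h5.1
    apply mul_le_mul_of_nonneg_right _ h0
    norm_num
  · refine le_trans h5.2 ?_
    apply mul_le_mul_of_nonneg_right _ h0
    norm_num

/-- the intervals which may contain a critical point -/
noncomputable def IB : Fin 7 → Set ℝ := ![
  Set.Icc ((699533575874 : ℕ) / 2 ^ 40) ((772256858038 : ℕ) / 2 ^ 40),
  Set.Icc ((1095393597550 : ℕ) / 2 ^ 40) ((1096142330319 : ℕ) / 2 ^ 40),
  Set.Icc ((1099454437437 : ℕ) / 2 ^ 40) ((1099464835680 : ℕ) / 2 ^ 40),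
  Set.Icc (-((539517051099 : ℕ) / 2 ^ 40)) (-((415073811838 : ℕ) / 2 ^ 40)),
  Set.Icc (-((1080654189357 : ℕ) / 2 ^ 40)) (-((1076463647486 : ℕ) / 2 ^ 40)),
  Set.Icc (-((1099386705885 : ℕ) / 2 ^ 40)) (-((1099358945464 : ℕ) / 2 ^ 40)),
  Set.Icc (-((1099499320411 : ℕ) / 2 ^ 40)) (-((1099496585441 : ℕ) / 2 ^ 40))]

lemma prodB : ([3, 5, 41, 191] : List ℕ).prod = 117465 := by norm_num

theorem cardB : (derivative (cyclotomic 117465 ℝ)).roots.card ≤ 7 := by
  have hmain := goodB.card_le 7 IB ?_ ?_ ?_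
  · rwa [prodB] at hmain
  · intro i
    fin_cases i <;> exact Set.ordConnected_Icc
  · intro i x hx
    fin_cases i
    · exact pos_D false 699533575874 pD1 (by decide) (by norm_num) (by decide) pD1_chk hx.1 hx.2
    · exact pos_D true 1095393597550 pD3 (by decide) (by norm_num) (by decide) pD3_chk hx.1 hx.2
    · exact pos_D false 1099454437437 pD5 (by decide) (by norm_num) (by decide) pD5_chk hx.1 hx.2
    · exact neg_D false 415073811838 nD1 (by decide) (by norm_num) nD1_chk hx.1 hx.2
    · exact neg_D true 1076463647486 nD3 (by decide) (by norm_num) nD3_chk hx.1 hx.2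
    · exact neg_D false 1099358945464 nD5 (by decide) (by norm_num) nD5_chk hx.1 hx.2
    · exact neg_D true 1099496585441 nD7 (by decide) (by norm_num) nD7_chk hx.1 hx.2
  · intro x hz
    have habs : |x| ≤ 1 := by
      have := hz
      rw [prodB] at this
      exact abs_le_one (by norm_num) this
    have hodd : Odd 117465 := by decide
    have hnear : ¬ |x| ≤ 1 / 4 := by
      intro hx
      have h2 := hz
      rw [prodB] at h2
      exact near_deriv_zero hodd (by norm_num) nearB hx h2
    have hx1 : x ≠ 1 := by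
      rintro rfl
      refine goodB.deriv_one (by norm_num) (by rw [qB_eq]; exact lenB) ?_ hz
      rw [qB_eq]
      refine nz_of_chain hWS0 (kitM hW0) oddB true 1099464835680 pS6 (by decide) pS6_chk ?_ ?_
      · norm_num
      · have : pS6.getLast (by decide) = 1099511627776 := by decide +kernel
        rw [this]; norm_num
    rcases le_total 0 x with h0 | h0
    · -- positive side
      rw [abs_of_nonneg h0] at hnear habs
      have hlt : x < 1 := lt_of_le_of_ne habs hx1
      have hx0 : 0 < x := by linarith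
      by_contra hcon
      push Not at hcon
      have g0 := hcon 0
      have g1 := hcon 1
      have g2 := hcon 2
      simp only [IB, Matrix.cons_val_zero, Matrix.cons_val_one, Matrix.cons_val, Set.mem_Icc,
        not_and, not_le] at g0 g1 g2
      have e0 : (274877906944 : ℕ) / (2 : ℝ) ^ 40 ≤ x := by
        have : ((274877906944 : ℕ) : ℝ) / (2 : ℝ) ^ 40 = 1 / 4 := by norm_num
        rw [this]; linarith
      rcases le_total x ((699533575874 : ℕ) / 2 ^ 40) with k | k
      · exact pos_S false 274877906944 pS0 (by decide) pS0_chk e0 k hlt hz hx0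
      have k := (g0 k).le
      rcases le_total x ((1095393597550 : ℕ) / 2 ^ 40) with k2 | k2
      · exact pos_S true 772256858038 pS2 (by decide) pS2_chk k k2 hlt hz hx0
      have k := (g1 k2).le
      rcases le_total x ((1099454437437 : ℕ) / 2 ^ 40) with k2 | k2
      · exact pos_S false 1096142330319 pS4 (by decide) pS4_chk k k2 hlt hz hx0
      have k := (g2 k2).le
      refine pos_S true 1099464835680 pS6 (by decide) pS6_chk k ?_ hlt hz hx0
      have : pS6.getLast (by decide) = 1099511627776 := by decide +kernel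
      rw [this]; norm_num; exact hlt.le
    · -- negative side
      obtain ⟨y, rfl⟩ : ∃ y, x = -y := ⟨-x, by ring⟩
      rw [abs_neg, abs_of_nonneg (by linarith)] at hnear habs
      have hy0 : 0 < y := by linarith
      by_contra hcon
      push Not at hcon
      have g3 := hcon 3
      have g4 := hcon 4
      have g5 := hcon 5
      have g6 := hcon 6
      simp only [IB, Matrix.cons_val, Set.mem_Icc, neg_le_neg_iff,
        not_and, not_le] at g3 g4 g5 g6
      have e0 : (274877906944 : ℕ) / (2 : ℝ) ^ 40 ≤ y := by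
        have : ((274877906944 : ℕ) : ℝ) / (2 : ℝ) ^ 40 = 1 / 4 := by norm_num
        rw [this]; linarith
      rcases le_total y ((415073811838 : ℕ) / 2 ^ 40) with k | k
      · exact neg_S true 274877906944 nS0 (by decide) nS0_chk e0 k hz hy0
      have k : (539517051099 : ℕ) / (2 : ℝ) ^ 40 ≤ y := by
        by_contra hc; push Not at hc; linarith [g3 hc.le]
      rcases le_total y ((1076463647486 : ℕ) / 2 ^ 40) with k2 | k2
      · exact neg_S false 539517051099 nS2 (by decide) nS2_chk k k2 hz hy0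
      have k : (1080654189357 : ℕ) / (2 : ℝ) ^ 40 ≤ y := by
        by_contra hc; push Not at hc; linarith [g4 hc.le]
      rcases le_total y ((1099358945464 : ℕ) / 2 ^ 40) with k2 | k2
      · exact neg_S true 1080654189357 nS4 (by decide) nS4_chk k k2 hz hy0
      have k : (1099386705885 : ℕ) / (2 : ℝ) ^ 40 ≤ y := by
        by_contra hc; push Not at hc; linarith [g5 hc.le]
      rcases le_total y ((1099496585441 : ℕ) / 2 ^ 40) with k2 | k2
      · exact neg_S false 1099386705885 nS6 (by decide) nS6_chk k k2 hz hy0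
      have k : (1099499320411 : ℕ) / (2 : ℝ) ^ 40 ≤ y := by
        by_contra hc; push Not at hc; linarith [g6 hc.le]
      refine neg_S true 1099499320411 nS8 (by decide) nS8_chk k ?_ hz hy0
      have : nS8.getLast (by decide) = 1099511627776 := by decide +kernel
      rw [this]; norm_num; exact habs

end Pool.Agent.helper82.Cyc
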