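import Mathlib
import Pool.Agent.helper82.CycG

set_option autoImplicit false

namespace Pool.Agent.helper82.Cyc

open Polynomial

def qA : List ℕ × List ℕ := ([32595, 15, 123, 159, 205, 265, 2173, 1],
  [615, 795, 6519, 3, 10865, 5, 41, 53])

lemma qA_eq : plmi [3, 5, 41, 53] = qA := by decide +kernel

lemma goodA : Good [3, 5, 41, 53] where
  pr := by
    intro p hp
    fin_cases hp
    · exact ⟨by norm_num, by decide⟩
    · exact ⟨by norm_num, by decide⟩
    · exact ⟨by norm_num, by decide⟩
    · exact ⟨by norm_num, by decide⟩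
  nd := by decide

lemma prodA : ([3, 5, 41, 53] : List ℕ).prod = 32595 := by norm_num

lemma ptPos (s : Bool) (a : ℕ) (ha0 : 0 < a) (ha : a < 2 ^ 40)
    (h : chain SC0 (MLo W0) (MHi W0) okT W0 (cond s qA qA.swap) a [a] = true) :
    0 < (cond s 1 (-1) : ℝ) * eval ((a : ℝ) / 2 ^ 40) (derivative (cyclotomic 32595 ℝ)) := by
  have := goodA.sgn_pos hWS0 hW0 (by norm_num) qA_eq (by decide) s a ha0 ha h
  rwa [prodA] at this

lemma ptNeg (s : Bool) (a : ℕ) (ha0 : 0 < a)
    (h : chain SC0 (VLo W0) (VHi W0) okT W0 (cond s qA.swap qA) a [a] = true) :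
    0 < (cond s 1 (-1) : ℝ) * eval (-((a : ℝ) / 2 ^ 40)) (derivative (cyclotomic 32595 ℝ)) := by
  have := goodA.sgn_neg hWS0 hW0 (by norm_num) qA_eq s a ha0 h
  rwa [prodA] at this

lemma gapPos (s : Bool) (a b : ℕ) (ha0 : 0 < a) (hab : a < b) (hb : b < 2 ^ 40)
    (h1 : chain SC0 (MLo W0) (MHi W0) okT W0 (cond s qA qA.swap) a [a] = true)
    (h2 : chain SC0 (MLo W0) (MHi W0) okT W0 (cond (!s) qA qA.swap) b [b] = true) :
    ∃ r, ((a : ℤ) : ℝ) / 2 ^ 40 < r ∧ r < ((b : ℤ) : ℝ) / 2 ^ 40 ∧
      eval r (derivative (cyclotomic 32595 ℝ)) = 0 := by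
  have e1 := ptPos s a ha0 (hab.trans hb) h1
  have e2 := ptPos (!s) b (ha0.trans hab) hb h2
  have hlt : (a : ℝ) / 2 ^ 40 < (b : ℝ) / 2 ^ 40 := by
    have : (a : ℝ) < b := by exact_mod_cast hab
    gcongr
  simp only [Int.cast_natCast]
  refine ivt hlt e1 ?_
  cases s
  · simpa using e2
  · simpa using e2

lemma gapNeg (s : Bool) (a b : ℕ) (hb0 : 0 < b) (hba : b < a)
    (h1 : chain SC0 (VLo W0) (VHi W0) okT W0 (cond s qA.swap qA) a [a] = true)
    (h2 : chain SC0 (VLo W0) (VHi W0) okT W0 (cond (!s) qA.swap qA) b [b] = true) :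
    ∃ r, ((-(a : ℤ) : ℤ) : ℝ) / 2 ^ 40 < r ∧ r < ((-(b : ℤ) : ℤ) : ℝ) / 2 ^ 40 ∧
      eval r (derivative (cyclotomic 32595 ℝ)) = 0 := by
  have e1 := ptNeg s a (hb0.trans hba) h1
  have e2 := ptNeg (!s) b hb0 h2
  have hlt : -((a : ℝ) / 2 ^ 40) < -((b : ℝ) / 2 ^ 40) := by
    have : (b : ℝ) < a := by exact_mod_cast hba
    gcongr
  have c1 : ((-(a : ℤ) : ℤ) : ℝ) / 2 ^ 40 = -((a : ℝ) / 2 ^ 40) := by push_cast; ring
  have c2 : ((-(b : ℤ) : ℤ) : ℝ) / 2 ^ 40 = -((b : ℝ) / 2 ^ 40) := by push_cast; ring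
  rw [c1, c2]
  refine ivt hlt e1 ?_
  cases s
  · simpa using e2
  · simpa using e2

def aZ : Fin 9 → ℤ := ![-1099500632659, -1099291725450, -1098412116148, -1097807384752,
  -1088516511498, -989560464998, 549755813888, 989560464998, 1096213092892]
def bZ : Fin 9 → ℤ := ![-1099291725450, -1098412116148, -1097807384752, -1088516511498,
  -989560464998, -329853488332, 989560464998, 1096213092892, 1099500632659]

theorem cardA : 9 ≤ (derivative (cyclotomic 32595 ℝ)).roots.card := by
  refine le_card_of_roots ?_ 9 (fun i => (aZ i : ℝ) / 2 ^ 40) (fun i => (bZ i : ℝ) / 2 ^ 40) ?_ ?_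
  · intro h0
    have := derivative_eq_zero.1 h0
    rw [natDegree_cyclotomic] at this
    exact (Nat.totient_pos.2 (by norm_num : 0 < 32595)).ne' this
  · have : ∀ i j : Fin 9, i < j → bZ i ≤ aZ j := by decide
    intro i j hij
    have h := this i j hij
    have h' : (bZ i : ℝ) ≤ (aZ j : ℝ) := by exact_mod_cast h
    change (bZ i : ℝ) / 2 ^ 40 ≤ (aZ j : ℝ) / 2 ^ 40
    gcongr
  · intro i
    fin_cases i
    · exact gapNeg false 1099500632659 1099291725450 (by norm_num) (by norm_num)
        (by decide +kernel) (by decide +kernel)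
    · exact gapNeg true 1099291725450 1098412116148 (by norm_num) (by norm_num)
        (by decide +kernel) (by decide +kernel)
    · exact gapNeg false 1098412116148 1097807384752 (by norm_num) (by norm_num)
        (by decide +kernel) (by decide +kernel)
    · exact gapNeg true 1097807384752 1088516511498 (by norm_num) (by norm_num)
        (by decide +kernel) (by decide +kernel)
    · exact gapNeg false 1088516511498 989560464998 (by norm_num) (by norm_num)
        (by decide +kernel) (by decide +kernel)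
    · exact gapNeg true 989560464998 329853488332 (by norm_num) (by norm_num)
        (by decide +kernel) (by decide +kernel)
    · exact gapPos false 549755813888 989560464998 (by norm_num) (by norm_num) (by norm_num)
        (by decide +kernel) (by decide +kernel)
    · exact gapPos true 989560464998 1096213092892 (by norm_num) (by norm_num) (by norm_num)
        (by decide +kernel) (by decide +kernel)
    · exact gapPos false 1096213092892 1099500632659 (by norm_num) (by norm_num) (by norm_num)
        (by decide +kernel) (by decide +kernel)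

end Pool.Agent.helper82.Cyc
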