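import Mathlib

set_option autoImplicit false

namespace Pool.Agent.helper82.Cyc

open Polynomial

/-- `x` times the logarithmic derivative of the `n`-th cyclotomic polynomial. -/
noncomputable def F (n : ℕ) (x : ℝ) : ℝ :=
  x * (eval x (derivative (cyclotomic n ℝ)) / eval x (cyclotomic n ℝ))

lemma eval_cyc_ne_zero {n : ℕ} (hn : Odd n) {x : ℝ} (hx : x ≠ 1) :
    eval x (cyclotomic n ℝ) ≠ 0 := by
  intro h
  have hpos : 0 < n := hn.pos
  have h1 : x ^ n = 1 := by
    have := Polynomial.isRoot_of_unity_of_root_cyclotomic (ζ := x) (n := n) (i := n)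
      (by simp [hpos.ne']) h
    exact this
  have h2 : x = 1 := by
    have hm := (Odd.strictMono_pow hn : StrictMono fun a : ℝ => a ^ n)
    exact hm.injective (by simpa using h1)
  exact hx h2

/-- The recursion for the logarithmic derivative. -/
lemma F_mul_prime {n p : ℕ} (hn : Odd n) (hp : p.Prime) (hpo : Odd p) (hdiv : ¬ p ∣ n) {x : ℝ}
    (hx : x ≠ 1) : F (n * p) x = p * F n (x ^ p) - F n x := by
  have hxp : x ^ p ≠ 1 := by
    intro h
    have hm := (Odd.strictMono_pow hpo : StrictMono fun a : ℝ => a ^ p)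
    exact hx (hm.injective (by simpa using h))
  have h1 := eval_cyc_ne_zero hn hx
  have h2 := eval_cyc_ne_zero hn hxp
  have h3 := eval_cyc_ne_zero (hn.mul hpo) hx
  have key := cyclotomic_expand_eq_cyclotomic_mul hp hdiv ℝ
  have e1 : eval (x ^ p) (cyclotomic n ℝ) = eval x (cyclotomic (n * p) ℝ) * eval x (cyclotomic n ℝ) := by
    have := congrArg (eval x) key
    simpa [expand_eval, eval_mul] using this
  have e2 : (p : ℝ) * x ^ (p - 1) * eval (x ^ p) (derivative (cyclotomic n ℝ)) =
      eval x (derivative (cyclotomic (n * p) ℝ)) * eval x (cyclotomic n ℝ) +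
      eval x (cyclotomic (n * p) ℝ) * eval x (derivative (cyclotomic n ℝ)) := by
    have := congrArg (fun q => eval x (derivative q)) key
    simp only [derivative_expand, derivative_mul, eval_add, eval_mul, expand_eval, eval_pow, eval_X,
      eval_natCast] at this
    linarith
  have hpp : x ^ p = x ^ (p - 1) * x := by
    rw [← pow_succ, Nat.sub_add_cancel hp.one_lt.le]
  unfold F
  rw [e1]
  generalize eval (x ^ p) (derivative (cyclotomic n ℝ)) = D at e2 ⊢
  field_simp
  rw [hpp]
  linear_combination (-x) * e2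

lemma F_one {x : ℝ} : F 1 x = x / (x - 1) := by
  unfold F
  simp [cyclotomic_one]
  rfl

/-- divisors `d` with positive sign -/
def plmi : List ℕ → List ℕ × List ℕ
  | [] => ([1], [])
  | p :: l => (((plmi l).1.map (p * ·)) ++ (plmi l).2, ((plmi l).2.map (p * ·)) ++ (plmi l).1)

/-- the elementary term -/
noncomputable def g (x : ℝ) (d : ℕ) : ℝ := d * x ^ d / (x ^ d - 1)

lemma map_mul_sum (x : ℝ) (p : ℕ) (l : List ℕ) :
    ((l.map (p * ·)).map (g x)).sum = p * (l.map (g (x ^ p))).sum := by
  induction l with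
  | nil => simp
  | cons a l ih =>
    simp only [List.map_cons, List.sum_cons, ih]
    unfold g
    push_cast
    rw [mul_add, ← pow_mul]
    ring

lemma F_prod (l : List ℕ) (hl : ∀ p ∈ l, p.Prime ∧ Odd p) (hnd : l.Nodup) {x : ℝ} (hx : x ≠ 1) :
    Odd l.prod ∧ (∀ q, q.Prime → q ∣ l.prod → q ∈ l) ∧
    F l.prod x = ((plmi l).1.map (g x)).sum - ((plmi l).2.map (g x)).sum := by
  induction l generalizing x with
  | nil =>
    refine ⟨by simp, ?_, ?_⟩
    · intro q hq h
      simp only [List.prod_nil, Nat.dvd_one] at h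
      exact absurd h hq.one_lt.ne'
    · simp [plmi, F_one, g]
  | cons p l ih =>
    have hp := hl p (by simp)
    have hl' : ∀ q ∈ l, q.Prime ∧ Odd q := fun q hq => hl q (by simp [hq])
    rw [List.nodup_cons] at hnd
    have hxp : x ^ p ≠ 1 := by
      intro h
      have hm := (Odd.strictMono_pow hp.2 : StrictMono fun a : ℝ => a ^ p)
      exact hx (hm.injective (by simpa using h))
    obtain ⟨ho, hd, h1⟩ := ih hl' hnd.2 hx
    obtain ⟨-, -, h2⟩ := ih hl' hnd.2 hxp
    have hnp : ¬ p ∣ l.prod := fun h => hnd.1 (hd p hp.1 h)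
    refine ⟨?_, ?_, ?_⟩
    · rw [List.prod_cons]; exact hp.2.mul ho
    · intro q hq h
      rw [List.prod_cons] at h
      rcases (Nat.Prime.dvd_mul hq).1 h with h | h
      · rw [(Nat.prime_dvd_prime_iff_eq hq hp.1).1 h]; simp
      · exact List.mem_cons_of_mem _ (hd q hq h)
    · rw [List.prod_cons, mul_comm p, F_mul_prime ho hp.1 hp.2 hnp hx, h1, h2]
      simp only [plmi, List.map_append, List.sum_append, map_mul_sum]
      ring

end Pool.Agent.helper82.Cyc
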