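import Mathlib
import Pool.Agent.helper82.CycA

set_option autoImplicit false

namespace Pool.Agent.helper82.Cyc

open Polynomial

/-- signed sum over the divisors -/
noncomputable def S (φ : ℕ → ℝ) (q : List ℕ × List ℕ) : ℝ :=
  (q.1.map φ).sum - (q.2.map φ).sum

/-- minus `x` times the derivative of `g` -/
noncomputable def h (x : ℝ) (d : ℕ) : ℝ := (d : ℝ) ^ 2 * x ^ d / (x ^ d - 1) ^ 2

lemma pow_ne_one {d : ℕ} (hd : Odd d) {x : ℝ} (hx : x ≠ 1) : x ^ d ≠ 1 := by
  intro h
  have hm := (Odd.strictMono_pow hd : StrictMono fun a : ℝ => a ^ d)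
  exact hx (hm.injective (by simpa using h))

lemma odd_plmi (l : List ℕ) (hl : ∀ p ∈ l, Odd p) :
    (∀ d ∈ (plmi l).1, Odd d) ∧ (∀ d ∈ (plmi l).2, Odd d) := by
  induction l with
  | nil => simp [plmi]
  | cons p l ih =>
    have hp := hl p (by simp)
    obtain ⟨h1, h2⟩ := ih (fun q hq => hl q (by simp [hq]))
    constructor
    · intro d hd
      simp only [plmi, List.mem_append, List.mem_map] at hd
      rcases hd with ⟨a, ha, rfl⟩ | hd
      · exact hp.mul (h1 a ha)
      · exact h2 d hd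
    · intro d hd
      simp only [plmi, List.mem_append, List.mem_map] at hd
      rcases hd with ⟨a, ha, rfl⟩ | hd
      · exact hp.mul (h2 a ha)
      · exact h1 d hd

lemma hasDerivAt_g {d : ℕ} (hd : Odd d) {x : ℝ} (hx : x ≠ 1) :
    ∃ s, HasDerivAt (fun x => g x d) s x ∧ x * s = - h x d := by
  have h1 : x ^ d - 1 ≠ 0 := sub_ne_zero.2 (pow_ne_one hd hx)
  refine ⟨_, ((hasDerivAt_pow d x).const_mul (d : ℝ)).div ((hasDerivAt_pow d x).sub_const 1) h1, ?_⟩
  have hpp : x ^ d = x ^ (d - 1) * x := by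
    rw [← pow_succ, Nat.sub_add_cancel hd.pos]
  unfold h
  field_simp
  rw [hpp]
  ring

lemma hasDerivAt_sum (l : List ℕ) (hl : ∀ d ∈ l, Odd d) {x : ℝ} (hx : x ≠ 1) :
    ∃ s, HasDerivAt (fun x => (l.map (g x)).sum) s x ∧ x * s = - (l.map (h x)).sum := by
  induction l with
  | nil => exact ⟨0, by simpa using hasDerivAt_const x (0:ℝ), by simp⟩
  | cons d l ih =>
    obtain ⟨s, hs, hs'⟩ := ih (fun q hq => hl q (by simp [hq]))
    obtain ⟨t, ht, ht'⟩ := hasDerivAt_g (hl d (by simp)) hx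
    refine ⟨t + s, ?_, ?_⟩
    · simp only [List.map_cons, List.sum_cons]
      exact ht.add hs
    · rw [mul_add, ht', hs']; simp; ring

lemma hasDerivAt_S (q : List ℕ × List ℕ) (h1 : ∀ d ∈ q.1, Odd d) (h2 : ∀ d ∈ q.2, Odd d)
    {x : ℝ} (hx : x ≠ 1) :
    ∃ s, HasDerivAt (fun x => S (g x) q) s x ∧ x * s = - S (h x) q := by
  obtain ⟨s, hs, hs'⟩ := hasDerivAt_sum q.1 h1 hx
  obtain ⟨t, ht, ht'⟩ := hasDerivAt_sum q.2 h2 hx
  refine ⟨s - t, hs.sub ht, ?_⟩
  rw [mul_sub, hs', ht']; unfold S; ring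

/-- data for a product of distinct odd primes -/
structure Good (l : List ℕ) : Prop where
  pr : ∀ p ∈ l, p.Prime ∧ Odd p
  nd : l.Nodup

lemma Good.odd {l : List ℕ} (hl : Good l) : Odd l.prod :=
  (F_prod l hl.pr hl.nd (x := 0) (by norm_num)).1

lemma Good.F_eq {l : List ℕ} (hl : Good l) {x : ℝ} (hx : x ≠ 1) :
    F l.prod x = S (g x) (plmi l) :=
  (F_prod l hl.pr hl.nd hx).2.2

lemma Good.deriv_eq_zero_iff {l : List ℕ} (hl : Good l) {x : ℝ} (hx : x ≠ 1) (hx0 : x ≠ 0) :
    eval x (derivative (cyclotomic l.prod ℝ)) = 0 ↔ S (g x) (plmi l) = 0 := by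
  rw [← hl.F_eq hx]
  have := eval_cyc_ne_zero hl.odd hx
  unfold F
  constructor
  · intro h; rw [h]; simp
  · intro h
    rcases mul_eq_zero.1 h with h | h
    · exact absurd h hx0
    · rcases div_eq_zero_iff.1 h with h | h
      · exact h
      · exact absurd h this

/-- at a zero of `Φ'` where `S h ≠ 0`, the zero is simple. -/
lemma Good.simple {l : List ℕ} (hl : Good l) {x : ℝ} (hx : x ≠ 1) (hx0 : x ≠ 0)
    (hz : eval x (derivative (cyclotomic l.prod ℝ)) = 0) (hh : S (h x) (plmi l) ≠ 0) :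
    eval x (derivative (derivative (cyclotomic l.prod ℝ))) ≠ 0 := by
  intro hzz
  obtain ⟨ho1, ho2⟩ := odd_plmi l (fun p hp => (hl.pr p hp).2)
  obtain ⟨s, hs, hs'⟩ := hasDerivAt_S (plmi l) ho1 ho2 hx
  have hS0 : S (g x) (plmi l) = 0 := (hl.deriv_eq_zero_iff hx hx0).1 hz
  have hΦ := eval_cyc_ne_zero hl.odd hx
  -- the identity `S g * Φ = x * Φ'` near `x`
  have hev : (fun y : ℝ => S (g y) (plmi l) * eval y (cyclotomic l.prod ℝ)) =ᶠ[nhds x]
      fun y => y * eval y (derivative (cyclotomic l.prod ℝ)) := by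
    filter_upwards [isOpen_ne.mem_nhds hx] with y hy
    have hy' : y ≠ 1 := hy
    rw [← hl.F_eq hy']
    have := eval_cyc_ne_zero hl.odd hy'
    unfold F
    field_simp
  have hd1 := hs.mul ((cyclotomic l.prod ℝ).hasDerivAt x)
  have hd2 := (hasDerivAt_id x).mul ((derivative (cyclotomic l.prod ℝ)).hasDerivAt x)
  have hd3 := hd2.congr_of_eventuallyEq hev
  have heq := hd1.unique hd3
  simp only [hS0, hz, hzz, id] at heq
  have : s = 0 := by
    have h0 : s * eval x (cyclotomic l.prod ℝ) = 0 := by linarith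
    rcases mul_eq_zero.1 h0 with h0 | h0
    · exact h0
    · exact absurd h0 hΦ
  rw [this] at hs'
  apply hh
  linarith

lemma Good.unique {l : List ℕ} (hl : Good l) {a b : ℝ} (hab : a < b)
    (hI : ∀ x ∈ Set.Icc a b, x ≠ 1 ∧ x ≠ 0 ∧ S (h x) (plmi l) ≠ 0)
    (ha : eval a (derivative (cyclotomic l.prod ℝ)) = 0)
    (hb : eval b (derivative (cyclotomic l.prod ℝ)) = 0) : False := by
  obtain ⟨ho1, ho2⟩ := odd_plmi l (fun p hp => (hl.pr p hp).2)
  have hA := hI a ⟨le_refl _, hab.le⟩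
  have hB := hI b ⟨hab.le, le_refl _⟩
  have ha' := (hl.deriv_eq_zero_iff hA.1 hA.2.1).1 ha
  have hb' := (hl.deriv_eq_zero_iff hB.1 hB.2.1).1 hb
  have hcont : ContinuousOn (fun x => S (g x) (plmi l)) (Set.Icc a b) := by
    intro x hx
    obtain ⟨s, hs, -⟩ := hasDerivAt_S (plmi l) ho1 ho2 (hI x hx).1
    exact hs.continuousAt.continuousWithinAt
  obtain ⟨c, hc, hc'⟩ := exists_deriv_eq_zero hab hcont (by simp only [ha', hb'])
  have hcI := hI c ⟨hc.1.le, hc.2.le⟩
  obtain ⟨s, hs, hs'⟩ := hasDerivAt_S (plmi l) ho1 ho2 hcI.1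
  rw [hs.deriv] at hc'
  rw [hc'] at hs'
  apply hcI.2.2
  linarith

/-- Upper bound for the number of real roots. -/
lemma Good.card_le {l : List ℕ} (hl : Good l) (k : ℕ) (I : Fin k → Set ℝ)
    (hconv : ∀ i, (I i).OrdConnected)
    (hI : ∀ i, ∀ x ∈ I i, x ≠ 1 ∧ x ≠ 0 ∧ S (h x) (plmi l) ≠ 0)
    (hcov : ∀ x : ℝ, eval x (derivative (cyclotomic l.prod ℝ)) = 0 → ∃ i, x ∈ I i) :
    (derivative (cyclotomic l.prod ℝ)).roots.card ≤ k := by
  classical
  set P := derivative (cyclotomic l.prod ℝ) with hP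
  have hnd : P.roots.Nodup := by
    rw [Multiset.nodup_iff_count_le_one]
    intro a
    rw [count_roots]
    by_contra hcon
    push Not at hcon
    have hP0 : P ≠ 0 := by
      rintro h0
      rw [h0] at hcon
      simp at hcon
    obtain ⟨h1, h2⟩ := (one_lt_rootMultiplicity_iff_isRoot hP0).1 hcon
    obtain ⟨i, hi⟩ := hcov a h1
    have hc := hI i a hi
    exact hl.simple hc.1 hc.2.1 h1 hc.2.2 h2
  rw [← Multiset.toFinset_card_of_nodup hnd]
  have hcov' : ∀ x ∈ P.roots.toFinset, ∃ i, x ∈ I i := by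
    intro x hx
    rw [Multiset.mem_toFinset, mem_roots'] at hx
    exact hcov x hx.2
  rcases Nat.eq_zero_or_pos k with hk | hk
  · subst hk
    rcases Finset.eq_empty_or_nonempty P.roots.toFinset with he | ⟨x, hx⟩
    · rw [he]; simp
    · obtain ⟨i, -⟩ := hcov' x hx
      exact i.elim0
  have : Nonempty (Fin k) := ⟨⟨0, hk⟩⟩
  choose! f hf using hcov'
  have hinj : Set.InjOn f (P.roots.toFinset : Set ℝ) := by
    intro x hx y hy hxy
    have hx1 := hf x hx
    have hy1 := hf y hy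
    rw [Finset.mem_coe, Multiset.mem_toFinset, mem_roots'] at hx hy
    by_contra hne
    rw [hxy] at hx1
    rcases lt_or_gt_of_ne hne with hlt | hlt
    · exact hl.unique hlt (fun z hz => hI _ z ((hconv _).out hx1 hy1 hz)) hx.2 hy.2
    · exact hl.unique hlt (fun z hz => hI _ z ((hconv _).out hy1 hx1 hz)) hy.2 hx.2
  have := Finset.card_le_card_of_injOn (s := P.roots.toFinset) (t := (Finset.univ : Finset (Fin k)))
    f (fun _ _ => Finset.mem_univ _) hinj
  simpa using this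

/-- All real critical points lie in `[-1, 1]`. -/
lemma abs_le_one {m : ℕ} (hm : 2 < m) {x : ℝ}
    (hx : eval x (derivative (cyclotomic m ℝ)) = 0) : |x| ≤ 1 := by
  have hm0 : 0 < m := by omega
  set P := cyclotomic m ℂ with hP
  have hdeg : 0 < P.degree := by
    rw [hP, degree_cyclotomic]
    exact_mod_cast Nat.totient_pos.2 hm0
  have hne : derivative P ≠ 0 := by
    intro h0
    have := derivative_eq_zero.1 h0
    rw [hP, natDegree_cyclotomic] at this
    exact (Nat.totient_pos.2 hm0).ne' this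
  have hmem : (x : ℂ) ∈ (derivative P).rootSet ℂ := by
    rw [mem_rootSet]
    refine ⟨hne, ?_⟩
    rw [coe_aeval_eq_eval]
    have h1 : derivative P = (derivative (cyclotomic m ℝ)).map (algebraMap ℝ ℂ) := by
      rw [hP, ← derivative_map, map_cyclotomic]
    rw [h1, eval_map_algebraMap]
    have : aeval (algebraMap ℝ ℂ x) (derivative (cyclotomic m ℝ)) =
        algebraMap ℝ ℂ (eval x (derivative (cyclotomic m ℝ))) := by
      rw [aeval_algebraMap_apply]; simp
    have h2 : ((x : ℝ) : ℂ) = algebraMap ℝ ℂ x := rfl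
    rw [h2, this, hx]; simp
  have h3 := rootSet_derivative_subset_convexHull_rootSet hdeg hmem
  have h4 : P.rootSet ℂ ⊆ Metric.closedBall 0 1 := by
    intro z hz
    rw [mem_rootSet] at hz
    have hz2 : IsRoot (cyclotomic m ℂ) z := by
      have := hz.2; rw [coe_aeval_eq_eval] at this; exact this
    have hz3 := Polynomial.isRoot_of_unity_of_root_cyclotomic (ζ := z) (n := m) (i := m)
      (by simp [hm0.ne']) hz2
    rw [mem_closedBall_zero_iff]
    exact (Complex.norm_eq_one_of_pow_eq_one hz3 hm0.ne').le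
  have h5 := convexHull_min h4 (convex_closedBall _ _) h3
  rw [mem_closedBall_zero_iff, Complex.norm_real] at h5
  simpa using h5

end Pool.Agent.helper82.Cyc
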