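import Mathlib
import Pool.Agent.helper82.CycB

set_option autoImplicit false

namespace Pool.Agent.helper82.Cyc

open Polynomial

def pwLo (W A : ℕ) : ℕ → ℕ → ℕ
  | 0, _ => 0
  | f + 1, d => cond (Nat.beq d 0) W
      (cond (Nat.beq (d % 2) 0) ((pwLo W A f (d / 2)) ^ 2 / W) ((pwLo W A f (d / 2)) ^ 2 / W * A / W))

def pwHi (W A : ℕ) : ℕ → ℕ → ℕ
  | 0, _ => W
  | f + 1, d => cond (Nat.beq d 0) W
      (cond (Nat.beq (d % 2) 0) ((pwHi W A f (d / 2)) ^ 2 / W + 1)
        (((pwHi W A f (d / 2)) ^ 2 / W + 1) * A / W + 1))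

lemma div_le_real (a b : ℕ) : ((a / b : ℕ) : ℝ) ≤ (a : ℝ) / b := Nat.cast_div_le

lemma real_le_div_succ (a b : ℕ) (hb : 0 < b) : (a : ℝ) / b ≤ ((a / b + 1 : ℕ) : ℝ) := by
  rw [div_le_iff₀ (by exact_mod_cast hb)]
  have := Nat.lt_div_mul_add (a := a) hb
  have h2 : a ≤ (a / b + 1) * b := by rw [add_mul, one_mul]; exact this.le
  exact_mod_cast h2

lemma nbeq_false {a b : ℕ} (h : a ≠ b) : Nat.beq a b = false := by
  cases hb : Nat.beq a b
  · rfl
  · exact absurd (Nat.eq_of_beq_eq_true hb) h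

lemma pwLo_le {W : ℕ} (hW : (0 : ℝ) < W) (A : ℕ) (f d : ℕ) : (pwLo W A f d : ℝ) ≤ W * ((A : ℝ) / W) ^ d := by
  induction f generalizing d with
  | zero =>
    simp only [pwLo, Nat.cast_zero]
    positivity
  | succ f ih =>
    unfold pwLo
    rcases Nat.eq_zero_or_pos d with hd | hd
    · subst hd; simp
    · have hb : Nat.beq d 0 = false := by
        exact nbeq_false (by omega)
      rw [hb]
      simp only [cond_false]
      have h1 := ih (d / 2)
      have h2 : (((pwLo W A f (d / 2)) ^ 2 / W : ℕ) : ℝ) ≤ W * ((A : ℝ) / W) ^ (2 * (d / 2)) := by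
        refine (div_le_real _ _).trans ?_
        rw [div_le_iff₀ hW, mul_comm 2, pow_mul]
        push_cast
        have h0 : (0 : ℝ) ≤ pwLo W A f (d / 2) := Nat.cast_nonneg _
        calc ((pwLo W A f (d / 2) : ℕ) : ℝ) ^ 2 ≤ (W * ((A : ℝ) / W) ^ (d / 2)) ^ 2 := by
              exact pow_le_pow_left₀ h0 h1 2
          _ = _ := by ring
      rcases Nat.mod_two_eq_zero_or_one d with hm | hm
      · rw [hm]
        have hb3 : Nat.beq 0 0 = true := rfl
        simp only [hb3, cond_true]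
        have : 2 * (d / 2) = d := by omega
        rwa [this] at h2
      · have hb2 : Nat.beq (d % 2) 0 = false := by
          exact nbeq_false (by omega)
        rw [hb2]
        simp only [cond_false]
        refine (div_le_real _ _).trans ?_
        rw [div_le_iff₀ hW]
        rw [Nat.cast_mul]
        have hA : (0 : ℝ) ≤ A := Nat.cast_nonneg _
        have h3 := mul_le_mul_of_nonneg_right h2 hA
        refine h3.trans (le_of_eq ?_)
        have : d = 2 * (d / 2) + 1 := by omega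
        conv_rhs => rw [this]
        rw [pow_succ]
        field_simp

lemma le_pwHi {W : ℕ} (hW : (0 : ℝ) < W) (A : ℕ) (hA : A ≤ W) (f d : ℕ) : W * ((A : ℝ) / W) ^ d ≤ (pwHi W A f d : ℝ) := by
  have hA0 : (0 : ℝ) ≤ A := Nat.cast_nonneg _
  have hx0 : 0 ≤ (A : ℝ) / W := by positivity
  have hx1 : (A : ℝ) / W ≤ 1 := by
    rw [div_le_one hW]; exact_mod_cast hA
  have hWn : 0 < W := by exact_mod_cast hW
  induction f generalizing d with
  | zero =>
    simp only [pwHi]
    have : ((A : ℝ) / W) ^ d ≤ 1 := pow_le_one₀ hx0 hx1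
    nlinarith
  | succ f ih =>
    unfold pwHi
    rcases Nat.eq_zero_or_pos d with hd | hd
    · subst hd; simp
    · have hb : Nat.beq d 0 = false := by
        exact nbeq_false (by omega)
      rw [hb]
      simp only [cond_false]
      have h1 := ih (d / 2)
      have h2 : W * ((A : ℝ) / W) ^ (2 * (d / 2)) ≤ (((pwHi W A f (d / 2)) ^ 2 / W + 1 : ℕ) : ℝ) := by
        refine le_trans ?_ (real_le_div_succ _ _ hWn)
        rw [le_div_iff₀ hW, mul_comm 2, pow_mul]
        push_cast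
        have h0 : (0 : ℝ) ≤ W * ((A : ℝ) / W) ^ (d / 2) := by positivity
        calc W * (((A : ℝ) / W) ^ (d / 2)) ^ 2 * W = (W * ((A : ℝ) / W) ^ (d / 2)) ^ 2 := by ring
          _ ≤ _ := pow_le_pow_left₀ h0 h1 2
      rcases Nat.mod_two_eq_zero_or_one d with hm | hm
      · rw [hm]
        have hb3 : Nat.beq 0 0 = true := rfl
        simp only [hb3, cond_true]
        have : 2 * (d / 2) = d := by omega
        rwa [this] at h2
      · have hb2 : Nat.beq (d % 2) 0 = false := by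
          exact nbeq_false (by omega)
        rw [hb2]
        simp only [cond_false]
        refine le_trans ?_ (real_le_div_succ _ _ hWn)
        rw [le_div_iff₀ hW]
        rw [Nat.cast_mul]
        have h3 := mul_le_mul_of_nonneg_right h2 hA0
        refine le_trans (le_of_eq ?_) h3
        have : d = 2 * (d / 2) + 1 := by omega
        conv_lhs => rw [this]
        rw [pow_succ]
        field_simp

/-- fuel -/
def fu : ℕ := 18

def sumBy (f : ℕ → ℕ) : List ℕ → ℕ
  | [] => 0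
  | d :: l => f d + sumBy f l

def allBy (f : ℕ → Bool) : List ℕ → Bool
  | [] => true
  | d :: l => f d && allBy f l

def chk (lo hi : ℕ → ℕ → ℕ) (ok : ℕ → ℕ → Bool) (C : ℕ) (q : List ℕ × List ℕ) (A B : ℕ) : Bool :=
  Nat.ble B C && (allBy (ok B) q.2 && Nat.blt (sumBy (hi B) q.2) (sumBy (lo A) q.1))

def chain (SC : ℕ) (lo hi : ℕ → ℕ → ℕ) (ok : ℕ → ℕ → Bool) (C : ℕ) (q : List ℕ × List ℕ) :
    ℕ → List ℕ → Bool
  | _, [] => true
  | a, b :: l => chk lo hi ok C q (a * SC) (b * SC) && chain SC lo hi ok C q b l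

/-- The list of odd divisors -/
def OddL (q : List ℕ × List ℕ) : Prop := (∀ d ∈ q.1, Odd d) ∧ (∀ d ∈ q.2, Odd d)

/-- A family of monotone functions with lower and upper fixed point bounds. -/
structure Kit (W : ℕ) (φ : ℝ → ℕ → ℝ) (lo hi : ℕ → ℕ → ℕ) (ok : ℕ → ℕ → Bool) (C : ℕ) : Prop where
  hW : (0 : ℝ) < W
  hC : C ≤ W
  mono : ∀ d, Odd d → ∀ x y : ℝ, 0 ≤ x → x ≤ y → y ≤ (C : ℝ) / W → φ x d ≤ φ y d
  hlo : ∀ A d, Odd d → A ≤ C → (lo A d : ℝ) ≤ W * φ ((A : ℝ) / W) d
  hhi : ∀ B d, Odd d → B ≤ C → ok B d = true → W * φ ((B : ℝ) / W) d ≤ (hi B d : ℝ)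

lemma sumBy_le {W : ℕ} (lo : ℕ → ℕ) (ψ : ℕ → ℝ) (l : List ℕ) (h : ∀ d ∈ l, (lo d : ℝ) ≤ W * ψ d) :
    (sumBy lo l : ℝ) ≤ W * (l.map ψ).sum := by
  induction l with
  | nil => simp [sumBy]
  | cons d l ih =>
    have h1 := h d (by simp)
    have h2 := ih (fun e he => h e (by simp [he]))
    simp only [sumBy, List.map_cons, List.sum_cons]
    push_cast
    linarith

lemma le_sumBy {W : ℕ} (hi : ℕ → ℕ) (ψ : ℕ → ℝ) (l : List ℕ) (h : ∀ d ∈ l, W * ψ d ≤ (hi d : ℝ)) :
    W * (l.map ψ).sum ≤ (sumBy hi l : ℝ) := by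
  induction l with
  | nil => simp [sumBy]
  | cons d l ih =>
    have h1 := h d (by simp)
    have h2 := ih (fun e he => h e (by simp [he]))
    simp only [sumBy, List.map_cons, List.sum_cons]
    push_cast
    linarith

lemma allBy_iff (f : ℕ → Bool) (l : List ℕ) : allBy f l = true ↔ ∀ d ∈ l, f d = true := by
  induction l with
  | nil => simp [allBy]
  | cons d l ih => simp [allBy, ih]

lemma Kit.chk_sound {W : ℕ} {φ : ℝ → ℕ → ℝ} {lo hi : ℕ → ℕ → ℕ} {ok : ℕ → ℕ → Bool} {C : ℕ}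
    (K : Kit W φ lo hi ok C) {q : List ℕ × List ℕ} (hq : OddL q) {A B : ℕ}
    (h : chk lo hi ok C q A B = true) {x : ℝ} (h1 : (A : ℝ) / W ≤ x) (h2 : x ≤ (B : ℝ) / W) :
    0 < S (φ x) q := by
  have hW := K.hW
  unfold chk at h
  simp only [Bool.and_eq_true, allBy_iff] at h
  obtain ⟨hBC, hok, hlt⟩ := h
  have hBC : B ≤ C := Nat.le_of_ble_eq_true hBC
  have hlt : sumBy (hi B) q.2 < sumBy (lo A) q.1 := by
    rw [Nat.blt_eq] at hlt; exact hlt
  have hAB : (A : ℝ) ≤ B := by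
    have := h1.trans h2
    rwa [div_le_div_iff_of_pos_right hW] at this
  have hAB : A ≤ B := by exact_mod_cast hAB
  have hx0 : 0 ≤ x := le_trans (by positivity) h1
  have hxC : x ≤ (C : ℝ) / W := h2.trans (by gcongr)
  have hL : (sumBy (lo A) q.1 : ℝ) ≤ W * (q.1.map (φ x)).sum := by
    apply sumBy_le
    intro d hd
    refine (K.hlo A d (hq.1 d hd) (hAB.trans hBC)).trans ?_
    exact mul_le_mul_of_nonneg_left (K.mono d (hq.1 d hd) _ _ (by positivity) h1 hxC) hW.le
  have hH : W * (q.2.map (φ x)).sum ≤ (sumBy (hi B) q.2 : ℝ) := by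
    apply le_sumBy
    intro d hd
    refine le_trans ?_ (K.hhi B d (hq.2 d hd) hBC (hok d hd))
    refine mul_le_mul_of_nonneg_left (K.mono d (hq.2 d hd) _ _ hx0 h2 ?_) hW.le
    gcongr
  have hlt' : (sumBy (hi B) q.2 : ℝ) < (sumBy (lo A) q.1 : ℝ) := by exact_mod_cast hlt
  unfold S
  have : W * ((q.1.map (φ x)).sum - (q.2.map (φ x)).sum) > 0 := by
    rw [mul_sub]; linarith
  exact (pos_iff_pos_of_mul_pos this).1 hW

lemma Kit.chain_sound {W SC : ℕ} (hWS : W = 2 ^ 40 * SC) {φ : ℝ → ℕ → ℝ} {lo hi : ℕ → ℕ → ℕ} {ok : ℕ → ℕ → Bool} {C : ℕ}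
    (K : Kit W φ lo hi ok C) {q : List ℕ × List ℕ} (hq : OddL q) (a : ℕ) (l : List ℕ) (hl : l ≠ [])
    (h : chain SC lo hi ok C q a l = true) {x : ℝ} (h1 : (a : ℝ) / 2 ^ 40 ≤ x)
    (h2 : x ≤ (l.getLast hl : ℝ) / 2 ^ 40) : 0 < S (φ x) q := by
  have hsc : ∀ b : ℕ, ((b * SC : ℕ) : ℝ) / W = (b : ℝ) / 2 ^ 40 := by
    intro b
    have hW := K.hW
    have h1 : (W : ℝ) = 2 ^ 40 * SC := by rw [hWS]; push_cast; ring
    have h2 : (SC : ℝ) ≠ 0 := by
      intro h0; rw [h0] at h1; simp at h1; rw [h1] at hW; simp at hW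
    rw [h1]; push_cast
    field_simp
  induction l generalizing a with
  | nil => exact absurd rfl hl
  | cons b l ih =>
    simp only [chain, Bool.and_eq_true] at h
    rcases le_or_gt x ((b : ℝ) / 2 ^ 40) with hx | hx
    · apply K.chk_sound hq h.1
      · rw [hsc]; exact h1
      · rw [hsc]; exact hx
    · have hl' : l ≠ [] := by
        rintro rfl
        simp only [List.getLast_singleton] at h2
        linarith
      rw [List.getLast_cons hl'] at h2
      exact ih b hl' h.2 hx.le h2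

end Pool.Agent.helper82.Cyc
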