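import Mathlib
import Pool.Agent.helper82.CycC

set_option autoImplicit false

namespace Pool.Agent.helper82.Cyc

open Polynomial

lemma pow_unit {x : ℝ} (h0 : 0 ≤ x) (h1 : x < 1) {d : ℕ} (hd : 0 < d) : 0 ≤ x ^ d ∧ x ^ d < 1 :=
  ⟨by positivity, pow_lt_one₀ h0 h1 hd.ne'⟩

/-! ### Kit D : `h` on `[0, 1)` -/

def DL (W d s : ℕ) : ℕ := d * d * s * W * W / ((W - s) * (W - s))
def DLo (W A d : ℕ) : ℕ := DL W d (pwLo W A fu d)
def DHi (W B d : ℕ) : ℕ := DL W d (pwHi W B fu d) + 1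
def okD (W B d : ℕ) : Bool := Nat.blt (pwHi W B fu d) W

lemma mono_h_aux {s t : ℝ} (hs : 0 ≤ s) (hst : s ≤ t) (ht : t < 1) (d : ℕ) :
    (d : ℝ) ^ 2 * s / (s - 1) ^ 2 ≤ (d : ℝ) ^ 2 * t / (t - 1) ^ 2 := by
  have ht0 : 0 ≤ t := hs.trans hst
  apply div_le_div₀ (by positivity)
  · exact mul_le_mul_of_nonneg_left hst (by positivity)
  · have : 0 < 1 - t := by linarith
    have : t - 1 ≠ 0 := by linarith
    positivity
  · nlinarith

lemma WX {W A : ℕ} (hW : (0 : ℝ) < W) (hA : A < W) : (A : ℝ) / W < 1 := by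
  rw [div_lt_one hW]; exact_mod_cast hA

lemma WX' {W A : ℕ} (hW : (0 : ℝ) < W) (hA : A ≤ W) : (A : ℝ) / W ≤ 1 := by
  rw [div_le_one hW]; exact_mod_cast hA

lemma DL_le {W : ℕ} (hW : (0 : ℝ) < W) (d s : ℕ) (hs : s < W) :
    (DL W d s : ℝ) ≤ W * ((d : ℝ) ^ 2 * ((s : ℝ) / W) / ((s : ℝ) / W - 1) ^ 2) := by
  unfold DL
  refine (div_le_real _ _).trans (le_of_eq ?_)
  have h1 : ((W - s : ℕ) : ℝ) = (W : ℝ) - s := by push_cast [Nat.cast_sub hs.le]; ring
  push_cast [h1]
  have h2 : (W : ℝ) - s ≠ 0 := by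
    have : (s : ℝ) < W := by exact_mod_cast hs
    linarith
  have h3 : (s : ℝ) / W - 1 = - ((W : ℝ) - s) / W := by field_simp; ring
  rw [h3]
  field_simp

lemma le_DL {W : ℕ} (hW : (0 : ℝ) < W) (d s : ℕ) (hs : s < W) :
    W * ((d : ℝ) ^ 2 * ((s : ℝ) / W) / ((s : ℝ) / W - 1) ^ 2) ≤ ((DL W d s + 1 : ℕ) : ℝ) := by
  unfold DL
  refine le_trans (le_of_eq ?_) (real_le_div_succ _ _ ?_)
  · have h1 : ((W - s : ℕ) : ℝ) = (W : ℝ) - s := by push_cast [Nat.cast_sub hs.le]; ring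
    push_cast [h1]
    have h2 : (W : ℝ) - s ≠ 0 := by
      have : (s : ℝ) < W := by exact_mod_cast hs
      linarith
    have h3 : (s : ℝ) / W - 1 = - ((W : ℝ) - s) / W := by field_simp; ring
    rw [h3]
    field_simp
  · have : 0 < W - s := by omega
    positivity

lemma kitD {W : ℕ} (hW : (0 : ℝ) < W) : Kit W h (DLo W) (DHi W) (okD W) (W - 1) where
  hW := hW
  hC := by omega
  mono := by
    intro d hd x y hx hxy hy
    have hW0 : 0 < W := by exact_mod_cast hW
    have hy1 : y < 1 := lt_of_le_of_lt hy (WX hW (by omega))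
    unfold h
    apply mono_h_aux (by positivity)
    · exact pow_le_pow_left₀ hx hxy d
    · exact (pow_unit (hx.trans hxy) hy1 hd.pos).2
  hlo := by
    intro A d hd hA
    have hA' : A < W := by
      have : 0 < W := by exact_mod_cast hW
      omega
    have hx := pow_unit (x := (A : ℝ) / W) (by positivity) (WX hW hA') hd.pos
    have h1 := pwLo_le hW A fu d
    have h2 : (pwLo W A fu d : ℝ) / W ≤ ((A : ℝ) / W) ^ d := by
      rw [div_le_iff₀ hW]; linarith
    have hs : pwLo W A fu d < W := by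
      have : (pwLo W A fu d : ℝ) < W := by nlinarith
      exact_mod_cast this
    unfold DLo
    refine (DL_le hW _ _ hs).trans ?_
    unfold h
    exact mul_le_mul_of_nonneg_left (mono_h_aux (by positivity) h2 hx.2 d) hW.le
  hhi := by
    intro B d hd hB hok
    have hB' : B < W := by
      have : 0 < W := by exact_mod_cast hW
      omega
    unfold okD at hok
    rw [Nat.blt_eq] at hok
    have h1 := le_pwHi hW B hB'.le fu d
    have h2 : ((B : ℝ) / W) ^ d ≤ (pwHi W B fu d : ℝ) / W := by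
      rw [le_div_iff₀ hW]; linarith
    unfold DHi
    refine le_trans ?_ (le_DL hW _ _ hok)
    unfold h
    exact mul_le_mul_of_nonneg_left (mono_h_aux (by positivity) h2 (WX hW hok) d) hW.le

/-! ### Kit V -/

noncomputable def vf (y : ℝ) (d : ℕ) : ℝ := d * y ^ d / (1 + y ^ d)

def VL (W d s : ℕ) : ℕ := d * s * W / (W + s)
def VLo (W A d : ℕ) : ℕ := VL W d (pwLo W A fu d)
def VHi (W B d : ℕ) : ℕ := VL W d (pwHi W B fu d) + 1
def okT (_ _ : ℕ) : Bool := true

lemma mono_v_aux {s t : ℝ} (hs : 0 ≤ s) (hst : s ≤ t) (d : ℕ) :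
    (d : ℝ) * s / (1 + s) ≤ (d : ℝ) * t / (1 + t) := by
  rw [div_le_div_iff₀ (by linarith) (by linarith)]
  have : (0 : ℝ) ≤ d := Nat.cast_nonneg _
  nlinarith

lemma VL_le {W : ℕ} (hW : (0 : ℝ) < W) (d s : ℕ) : (VL W d s : ℝ) ≤ W * ((d : ℝ) * ((s : ℝ) / W) / (1 + (s : ℝ) / W)) := by
  unfold VL
  refine (div_le_real _ _).trans (le_of_eq ?_)
  push_cast
  have h2 : (W : ℝ) + s ≠ 0 := by positivity
  field_simp

lemma le_VL {W : ℕ} (hW : (0 : ℝ) < W) (d s : ℕ) : W * ((d : ℝ) * ((s : ℝ) / W) / (1 + (s : ℝ) / W)) ≤ ((VL W d s + 1 : ℕ) : ℝ) := by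
  unfold VL
  refine le_trans (le_of_eq ?_) (real_le_div_succ _ _ ?_)
  · push_cast
    have h2 : (W : ℝ) + s ≠ 0 := by positivity
    field_simp
  · have : 0 < W := by exact_mod_cast hW
    omega

lemma kitV {W : ℕ} (hW : (0 : ℝ) < W) : Kit W vf (VLo W) (VHi W) okT W where
  hW := hW
  hC := le_refl _
  mono := by
    intro d hd x y hx hxy hy
    unfold vf
    exact mono_v_aux (by positivity) (pow_le_pow_left₀ hx hxy d) d
  hlo := by
    intro A d hd hA
    have h1 := pwLo_le hW A fu d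
    have h2 : (pwLo W A fu d : ℝ) / W ≤ ((A : ℝ) / W) ^ d := by
      rw [div_le_iff₀ hW]; linarith
    unfold VLo
    refine (VL_le hW _ _).trans ?_
    unfold vf
    exact mul_le_mul_of_nonneg_left (mono_v_aux (by positivity) h2 d) hW.le
  hhi := by
    intro B d hd hB hok
    have h1 := le_pwHi hW B hB fu d
    have h2 : ((B : ℝ) / W) ^ d ≤ (pwHi W B fu d : ℝ) / W := by
      rw [le_div_iff₀ hW]; linarith
    unfold VHi
    refine le_trans ?_ (le_VL hW _ _)
    unfold vf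
    exact mul_le_mul_of_nonneg_left (mono_v_aux (by positivity) h2 d) hW.le

/-! ### Kit E -/

noncomputable def ef (y : ℝ) (d : ℕ) : ℝ := (d : ℝ) ^ 2 * y ^ d / (1 + y ^ d) ^ 2

def EL (W d s : ℕ) : ℕ := d * d * s * W * W / ((W + s) * (W + s))
def ELo (W A d : ℕ) : ℕ := EL W d (pwLo W A fu d)
def EHi (W B d : ℕ) : ℕ := EL W d (pwHi W B fu d) + 1
def okE (W B d : ℕ) : Bool := Nat.ble (pwHi W B fu d) W

lemma mono_e_aux {s t : ℝ} (hs : 0 ≤ s) (hst : s ≤ t) (ht : t ≤ 1) (d : ℕ) :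
    (d : ℝ) ^ 2 * s / (1 + s) ^ 2 ≤ (d : ℝ) ^ 2 * t / (1 + t) ^ 2 := by
  have ht0 : 0 ≤ t := hs.trans hst
  rw [div_le_div_iff₀ (by positivity) (by positivity)]
  have h1 : s * (1 + t) ^ 2 ≤ t * (1 + s) ^ 2 := by
    have : 0 ≤ (t - s) * (1 - s * t) := mul_nonneg (by linarith) (by nlinarith)
    nlinarith
  have : (0 : ℝ) ≤ (d : ℝ) ^ 2 := by positivity
  nlinarith

lemma EL_le {W : ℕ} (hW : (0 : ℝ) < W) (d s : ℕ) : (EL W d s : ℝ) ≤ W * ((d : ℝ) ^ 2 * ((s : ℝ) / W) / (1 + (s : ℝ) / W) ^ 2) := by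
  unfold EL
  refine (div_le_real _ _).trans (le_of_eq ?_)
  push_cast
  have h2 : (W : ℝ) + s ≠ 0 := by positivity
  field_simp

lemma le_EL {W : ℕ} (hW : (0 : ℝ) < W) (d s : ℕ) :
    W * ((d : ℝ) ^ 2 * ((s : ℝ) / W) / (1 + (s : ℝ) / W) ^ 2) ≤ ((EL W d s + 1 : ℕ) : ℝ) := by
  unfold EL
  refine le_trans (le_of_eq ?_) (real_le_div_succ _ _ ?_)
  · push_cast
    have h2 : (W : ℝ) + s ≠ 0 := by positivity
    field_simp
  · have : 0 < W + s := by
      have : 0 < W := by exact_mod_cast hW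
      omega
    positivity

lemma kitE {W : ℕ} (hW : (0 : ℝ) < W) : Kit W ef (ELo W) (EHi W) (okE W) W where
  hW := hW
  hC := le_refl _
  mono := by
    intro d hd x y hx hxy hy
    unfold ef
    have hy1 : y ≤ 1 := hy.trans (WX' hW (le_refl _))
    exact mono_e_aux (by positivity) (pow_le_pow_left₀ hx hxy d)
      (pow_le_one₀ (hx.trans hxy) hy1) d
  hlo := by
    intro A d hd hA
    have h1 := pwLo_le hW A fu d
    have h2 : (pwLo W A fu d : ℝ) / W ≤ ((A : ℝ) / W) ^ d := by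
      rw [div_le_iff₀ hW]; linarith
    unfold ELo
    refine (EL_le hW _ _).trans ?_
    unfold ef
    exact mul_le_mul_of_nonneg_left (mono_e_aux (by positivity) h2
      (pow_le_one₀ (by positivity) (WX' hW hA)) d) hW.le
  hhi := by
    intro B d hd hB hok
    have h1 := le_pwHi hW B hB fu d
    have h2 : ((B : ℝ) / W) ^ d ≤ (pwHi W B fu d : ℝ) / W := by
      rw [le_div_iff₀ hW]; linarith
    unfold okE at hok
    have hok : pwHi W B fu d ≤ W := Nat.le_of_ble_eq_true hok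
    unfold EHi
    refine le_trans ?_ (le_EL hW _ _)
    unfold ef
    exact mul_le_mul_of_nonneg_left (mono_e_aux (by positivity) h2 (WX' hW hok) d) hW.le

/-! ### Kit M -/

/-- logarithmic derivative of `1 + x + ... + x ^ (d-1)` times `x` -/
noncomputable def Mf (x : ℝ) (d : ℕ) : ℝ :=
  (∑ j ∈ Finset.range d, (j : ℝ) * x ^ j) / (∑ j ∈ Finset.range d, x ^ j)

lemma den_pos {d : ℕ} (hd : 0 < d) {x : ℝ} (hx : 0 ≤ x) : 0 < ∑ j ∈ Finset.range d, x ^ j := by
  have h1 : x ^ 0 ≤ ∑ j ∈ Finset.range d, x ^ j :=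
    Finset.single_le_sum (f := fun j => x ^ j) (fun i _ => by positivity) (Finset.mem_range.2 hd)
  have : x ^ 0 = 1 := pow_zero x
  linarith

lemma Mf_mono {d : ℕ} (hd : 0 < d) {x y : ℝ} (hx : 0 ≤ x) (hxy : x ≤ y) : Mf x d ≤ Mf y d := by
  have hy := hx.trans hxy
  unfold Mf
  rw [div_le_div_iff₀ (den_pos hd hx) (den_pos hd hy)]
  have key : 0 ≤ 2 * ((∑ j ∈ Finset.range d, (j : ℝ) * y ^ j) * (∑ i ∈ Finset.range d, x ^ i) -
      (∑ j ∈ Finset.range d, (j : ℝ) * x ^ j) * (∑ i ∈ Finset.range d, y ^ i)) := by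
    have e1 : (∑ j ∈ Finset.range d, (j : ℝ) * y ^ j) * (∑ i ∈ Finset.range d, x ^ i) -
      (∑ j ∈ Finset.range d, (j : ℝ) * x ^ j) * (∑ i ∈ Finset.range d, y ^ i) =
      ∑ j ∈ Finset.range d, ∑ i ∈ Finset.range d, (j : ℝ) * (y ^ j * x ^ i - x ^ j * y ^ i) := by
      rw [Finset.sum_mul_sum, Finset.sum_mul_sum, ← Finset.sum_sub_distrib]
      refine Finset.sum_congr rfl fun j _ => ?_
      rw [← Finset.sum_sub_distrib]
      refine Finset.sum_congr rfl fun i _ => ?_
      ring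
    have e2 : ∑ j ∈ Finset.range d, ∑ i ∈ Finset.range d, (j : ℝ) * (y ^ j * x ^ i - x ^ j * y ^ i)
      = ∑ j ∈ Finset.range d, ∑ i ∈ Finset.range d, (i : ℝ) * (y ^ i * x ^ j - x ^ i * y ^ j) := by
      rw [Finset.sum_comm]
    rw [two_mul, e1]
    nth_rewrite 2 [e2]
    rw [← Finset.sum_add_distrib]
    refine Finset.sum_nonneg fun j _ => ?_
    rw [← Finset.sum_add_distrib]
    refine Finset.sum_nonneg fun i _ => ?_
    have e3 : (j : ℝ) * (y ^ j * x ^ i - x ^ j * y ^ i) + (i : ℝ) * (y ^ i * x ^ j - x ^ i * y ^ j)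
      = ((j : ℝ) - i) * (y ^ j * x ^ i - x ^ j * y ^ i) := by ring
    rw [e3]
    rcases le_total i j with hij | hij
    · obtain ⟨k, rfl⟩ := Nat.exists_eq_add_of_le hij
      apply mul_nonneg
      · push_cast; have : (0 : ℝ) ≤ k := Nat.cast_nonneg _; linarith
      · have h1 : x ^ k ≤ y ^ k := pow_le_pow_left₀ hx hxy k
        have h2 : 0 ≤ x ^ i * y ^ i := by positivity
        have : y ^ (i + k) * x ^ i - x ^ (i + k) * y ^ i = x ^ i * y ^ i * (y ^ k - x ^ k) := by
          rw [pow_add, pow_add]; ring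
        rw [this]
        exact mul_nonneg h2 (by linarith)
    · obtain ⟨k, rfl⟩ := Nat.exists_eq_add_of_le hij
      have h1 : x ^ k ≤ y ^ k := pow_le_pow_left₀ hx hxy k
      have h2 : 0 ≤ x ^ j * y ^ j := by positivity
      have h3 : ((j : ℝ) - (j + k : ℕ)) * (y ^ j * x ^ (j + k) - x ^ j * y ^ (j + k)) =
        k * (x ^ j * y ^ j * (y ^ k - x ^ k)) := by
        push_cast; rw [pow_add, pow_add]; ring
      rw [h3]
      exact mul_nonneg (Nat.cast_nonneg _) (mul_nonneg h2 (by linarith))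
  linarith

lemma sum_j (x : ℝ) (d : ℕ) : (1 - x) ^ 2 * ∑ j ∈ Finset.range d, (j : ℝ) * x ^ j =
    x - d * x ^ d + (d - 1) * x ^ (d + 1) := by
  induction d with
  | zero => simp
  | succ d ih =>
    rw [Finset.sum_range_succ, mul_add, ih]
    push_cast
    ring

lemma Mf_eq {d : ℕ} (hd : 0 < d) {x : ℝ} (hx : 0 ≤ x) (hx1 : x < 1) :
    Mf x d = x / (1 - x) - d * x ^ d / (1 - x ^ d) := by
  have h1 := sum_j x d
  have h2 : (1 - x) * ∑ j ∈ Finset.range d, x ^ j = 1 - x ^ d := by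
    have := geom_sum_mul x d
    linarith
  have h3 : 0 < 1 - x := by linarith
  have h4 := (pow_unit hx hx1 hd).2
  have h5 : 0 < 1 - x ^ d := by linarith
  have h6 := den_pos hd hx
  unfold Mf
  rw [div_eq_iff h6.ne']
  have h7 : ∑ j ∈ Finset.range d, x ^ j = (1 - x ^ d) / (1 - x) := by
    rw [eq_div_iff h3.ne']; linarith
  have h8 : ∑ j ∈ Finset.range d, (j : ℝ) * x ^ j =
      (x - d * x ^ d + (d - 1) * x ^ (d + 1)) / (1 - x) ^ 2 := by
    rw [eq_div_iff (by positivity)]; linarith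
  rw [h7, h8]
  field_simp
  ring

lemma Mf_one {d : ℕ} (hd : 0 < d) : Mf 1 d = ((d : ℝ) - 1) / 2 := by
  unfold Mf
  have h1 : ∀ d : ℕ, ∑ j ∈ Finset.range d, (j : ℝ) = d * (d - 1) / 2 := by
    intro d
    induction d with
    | zero => simp
    | succ d ih => rw [Finset.sum_range_succ, ih]; push_cast; ring
  simp only [one_pow, mul_one, Finset.sum_const, Finset.card_range, nsmul_eq_mul, h1]
  have : (d : ℝ) ≠ 0 := by exact_mod_cast hd.ne'
  field_simp

lemma Mf_nonneg {d : ℕ} (hd : 0 < d) {x : ℝ} (hx : 0 ≤ x) : 0 ≤ Mf x d := by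
  unfold Mf
  apply div_nonneg
  · exact Finset.sum_nonneg fun i _ => by positivity
  · exact (den_pos hd hx).le

def UL (W d s : ℕ) : ℕ := d * s * W / (W - s)
def MLo' (W A d s : ℕ) : ℕ := cond (Nat.ble W s) 0 (A * W / (W - A) - (UL W d s + 1))
def MLo (W A d : ℕ) : ℕ := cond (Nat.ble W A) ((d - 1) * W / 2) (MLo' W A d (pwHi W A fu d))
def MHi (W B d : ℕ) : ℕ := cond (Nat.ble W B) ((d - 1) * W / 2 + 1)
  (B * W / (W - B) + 1 - UL W d (pwLo W B fu d))

lemma UL_le {W : ℕ} (hW : (0 : ℝ) < W) (d s : ℕ) (hs : s < W) :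
    (UL W d s : ℝ) ≤ W * ((d : ℝ) * ((s : ℝ) / W) / (1 - (s : ℝ) / W)) := by
  unfold UL
  refine (div_le_real _ _).trans (le_of_eq ?_)
  have h1 : ((W - s : ℕ) : ℝ) = (W : ℝ) - s := by push_cast [Nat.cast_sub hs.le]; ring
  push_cast [h1]
  have h2 : (W : ℝ) - s ≠ 0 := by
    have : (s : ℝ) < W := by exact_mod_cast hs
    linarith
  have h3 : 1 - (s : ℝ) / W = ((W : ℝ) - s) / W := by field_simp
  rw [h3]
  field_simp

lemma le_UL {W : ℕ} (hW : (0 : ℝ) < W) (d s : ℕ) (hs : s < W) :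
    W * ((d : ℝ) * ((s : ℝ) / W) / (1 - (s : ℝ) / W)) ≤ ((UL W d s + 1 : ℕ) : ℝ) := by
  unfold UL
  refine le_trans (le_of_eq ?_) (real_le_div_succ _ _ (by omega))
  have h1 : ((W - s : ℕ) : ℝ) = (W : ℝ) - s := by push_cast [Nat.cast_sub hs.le]; ring
  push_cast [h1]
  have h2 : (W : ℝ) - s ≠ 0 := by
    have : (s : ℝ) < W := by exact_mod_cast hs
    linarith
  have h3 : 1 - (s : ℝ) / W = ((W : ℝ) - s) / W := by field_simp
  rw [h3]
  field_simp

lemma mono_u_aux {s t : ℝ} (hs : 0 ≤ s) (hst : s ≤ t) (ht : t < 1) (d : ℕ) :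
    (d : ℝ) * s / (1 - s) ≤ (d : ℝ) * t / (1 - t) := by
  rw [div_le_div_iff₀ (by linarith) (by linarith)]
  have : (0 : ℝ) ≤ d := Nat.cast_nonneg _
  nlinarith

lemma nble_false {a b : ℕ} (h : ¬ a ≤ b) : Nat.ble a b = false := by
  cases hb : Nat.ble a b
  · rfl
  · exact absurd (Nat.le_of_ble_eq_true hb) h

lemma xterm {W : ℕ} (hW : (0 : ℝ) < W) (A : ℕ) (hA : A < W) : (W : ℝ) * (((A : ℝ) / W) / (1 - (A : ℝ) / W)) =
    (A * W : ℕ) / ((W - A : ℕ) : ℝ) := by
  have h1 : ((W - A : ℕ) : ℝ) = (W : ℝ) - A := by push_cast [Nat.cast_sub hA.le]; ring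
  push_cast [h1]
  have h2 : (W : ℝ) - A ≠ 0 := by
    have : (A : ℝ) < W := by exact_mod_cast hA
    linarith
  have h3 : 1 - (A : ℝ) / W = ((W : ℝ) - A) / W := by field_simp
  rw [h3]
  field_simp

lemma kitM {W : ℕ} (hW : (0 : ℝ) < W) : Kit W Mf (MLo W) (MHi W) okT W where
  hW := hW
  hC := le_refl _
  mono := by
    intro d hd x y hx hxy hy
    exact Mf_mono hd.pos hx hxy
  hlo := by
    intro A d hd hA
    have hx0 : 0 ≤ (A : ℝ) / W := by positivity
    unfold MLo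
    rcases Nat.lt_or_ge A W with hAW | hAW
    · rw [nble_false (by omega)]
      simp only [cond_false]
      unfold MLo'
      rcases Nat.lt_or_ge (pwHi W A fu d) W with hs | hs
      · rw [nble_false (by omega)]
        simp only [cond_false]
        have hM := Mf_nonneg hd.pos hx0
        have hM' : 0 ≤ W * Mf ((A : ℝ) / W) d := by positivity
        rcases le_total (A * W / (W - A)) (UL W d (pwHi W A fu d) + 1) with hle | hle
        · rw [Nat.sub_eq_zero_of_le hle]; simpa using hM'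
        · rw [Nat.cast_sub hle, Mf_eq hd.pos hx0 (WX hW hAW), mul_sub]
          have h1 := le_pwHi hW A hA fu d
          have h2 : ((A : ℝ) / W) ^ d ≤ (pwHi W A fu d : ℝ) / W := by
            rw [le_div_iff₀ hW]; linarith
          have h3 := le_UL hW d _ hs
          have h4 := mono_u_aux (by positivity) h2 (WX hW hs) d
          have h5 := mul_le_mul_of_nonneg_left h4 hW.le
          have h6 := div_le_real (A * W) (W - A)
          rw [← xterm hW A hAW] at h6
          linarith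
      · have : Nat.ble W (pwHi W A fu d) = true := Nat.ble_eq_true_of_le hs
        rw [this]
        simp only [cond_true, Nat.cast_zero]
        have hM := Mf_nonneg hd.pos hx0
        positivity
    · have : Nat.ble W A = true := Nat.ble_eq_true_of_le hAW
      rw [this]
      simp only [cond_true]
      have hAW' : A = W := le_antisymm hA hAW
      have h1 : (A : ℝ) / W = 1 := by rw [hAW']; exact div_self hW.ne'
      rw [h1, Mf_one hd.pos]
      refine (div_le_real _ _).trans (le_of_eq ?_)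
      have hd1 : 1 ≤ d := hd.pos
      push_cast [Nat.cast_sub hd1]
      ring
  hhi := by
    intro B d hd hB _
    have hx0 : 0 ≤ (B : ℝ) / W := by positivity
    unfold MHi
    rcases Nat.lt_or_ge B W with hBW | hBW
    · rw [nble_false (by omega)]
      simp only [cond_false]
      have hx := pow_unit (x := (B : ℝ) / W) (by positivity) (WX hW hBW) hd.pos
      have h1 := pwLo_le hW B fu d
      have h2 : (pwLo W B fu d : ℝ) / W ≤ ((B : ℝ) / W) ^ d := by
        rw [div_le_iff₀ hW]; linarith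
      have hs : pwLo W B fu d < W := by
        have : (pwLo W B fu d : ℝ) < W := by nlinarith
        exact_mod_cast this
      rw [Mf_eq hd.pos hx0 (WX hW hBW), mul_sub]
      have h3 := UL_le hW d _ hs
      have h4 := mono_u_aux (by positivity) h2 hx.2 d
      have h5 := mul_le_mul_of_nonneg_left h4 hW.le
      have h6 := real_le_div_succ (B * W) (W - B) (by omega)
      rw [← xterm hW B hBW] at h6
      have h7 : ((B * W / (W - B) + 1 : ℕ) : ℝ) - (UL W d (pwLo W B fu d) : ℝ) ≤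
          ((B * W / (W - B) + 1 - UL W d (pwLo W B fu d) : ℕ) : ℝ) := by
        rw [sub_le_iff_le_add]
        have : B * W / (W - B) + 1 ≤ B * W / (W - B) + 1 - UL W d (pwLo W B fu d) + UL W d (pwLo W B fu d) := by
          omega
        exact_mod_cast this
      linarith
    · have : Nat.ble W B = true := Nat.ble_eq_true_of_le hBW
      rw [this]
      simp only [cond_true]
      have hBW' : B = W := le_antisymm hB hBW
      have h1 : (B : ℝ) / W = 1 := by rw [hBW']; exact div_self hW.ne'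
      rw [h1, Mf_one hd.pos]
      refine le_trans (le_of_eq ?_) (real_le_div_succ _ _ (by norm_num))
      have hd1 : 1 ≤ d := hd.pos
      push_cast [Nat.cast_sub hd1]
      ring

end Pool.Agent.helper82.Cyc
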