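import Mathlib
import Pool.Agent.helper82.CycD

set_option autoImplicit false

namespace Pool.Agent.helper82.Cyc

open Polynomial

lemma S_swap (φ : ℕ → ℝ) (q : List ℕ × List ℕ) : S φ q.swap = - S φ q := by
  unfold S; simp

lemma nz_of_chain {W SC : ℕ} (hWS : W = 2 ^ 40 * SC) {φ : ℝ → ℕ → ℝ} {lo hi : ℕ → ℕ → ℕ}
    {ok : ℕ → ℕ → Bool} {C : ℕ} (K : Kit W φ lo hi ok C) {q : List ℕ × List ℕ} (hq : OddL q)
    (s : Bool) (a : ℕ) (l : List ℕ) (hl : l ≠ [])
    (h : chain SC lo hi ok C (cond s q q.swap) a l = true) {x : ℝ} (h1 : (a : ℝ) / 2 ^ 40 ≤ x)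
    (h2 : x ≤ (l.getLast hl : ℝ) / 2 ^ 40) : S (φ x) q ≠ 0 := by
  cases s
  · have hq' : OddL q.swap := ⟨hq.2, hq.1⟩
    have := K.chain_sound hWS hq' a l hl h h1 h2
    rw [S_swap] at this
    intro h0; rw [h0] at this; simp at this
  · have := K.chain_sound hWS hq a l hl h h1 h2
    exact this.ne'

lemma S_g_eq {q : List ℕ × List ℕ} (hq : OddL q) (hlen : q.1.length = q.2.length) {x : ℝ}
    (hx : 0 ≤ x) (hx1 : x < 1) : S (g x) q = S (Mf x) q := by
  have key : ∀ l : List ℕ, (∀ d ∈ l, Odd d) →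
      (l.map (g x)).sum = (l.map (Mf x)).sum - l.length * (x / (1 - x)) := by
    intro l hl
    induction l with
    | nil => simp
    | cons d l ih =>
      have hd := hl d (by simp)
      rw [List.map_cons, List.sum_cons, ih (fun e he => hl e (by simp [he])), List.map_cons,
        List.sum_cons, List.length_cons, Mf_eq hd.pos hx hx1]
      have h4 := (pow_unit hx hx1 hd.pos).2
      have h5 : x ^ d - 1 ≠ 0 := by linarith
      have h6 : 1 - x ^ d ≠ 0 := by linarith
      have h7 : g x d = - (d * x ^ d / (1 - x ^ d)) := by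
        unfold g
        rw [div_eq_iff h5]
        field_simp
        ring
      rw [h7]; push_cast; ring
  unfold S
  rw [key q.1 hq.1, key q.2 hq.2, hlen]
  ring

lemma S_g_neg {q : List ℕ × List ℕ} (hq : OddL q) (y : ℝ) : S (g (-y)) q = S (vf y) q := by
  have key : ∀ l : List ℕ, (∀ d ∈ l, Odd d) → (l.map (g (-y))).sum = (l.map (vf y)).sum := by
    intro l hl
    congr 1
    apply List.map_congr_left
    intro d hd
    unfold g vf
    rw [(hl d hd).neg_pow, ← neg_div_neg_eq]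
    congr 1 <;> ring
  unfold S
  rw [key q.1 hq.1, key q.2 hq.2]

lemma S_h_neg {q : List ℕ × List ℕ} (hq : OddL q) (y : ℝ) : S (h (-y)) q = - S (ef y) q := by
  have key : ∀ l : List ℕ, (∀ d ∈ l, Odd d) → (l.map (h (-y))).sum = - (l.map (ef y)).sum := by
    intro l hl
    induction l with
    | nil => simp
    | cons d l ih =>
      rw [List.map_cons, List.sum_cons, ih (fun e he => hl e (by simp [he])), List.map_cons,
        List.sum_cons]
      have : h (-y) d = - ef y d := by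
        unfold h ef
        rw [(hl d (by simp)).neg_pow]
        have e1 : (-y ^ d - 1) ^ 2 = (1 + y ^ d) ^ 2 := by ring
        rw [e1]; ring
      rw [this]; ring
  unfold S
  rw [key q.1 hq.1, key q.2 hq.2]
  ring

/-! ### Near zero -/

def Near (n : ℕ) (c1 c2 : ℝ) : Prop := ∀ x : ℝ, |x| ≤ 1 / 4 → c1 * |x| ≤ |F n x| ∧ |F n x| ≤ c2 * |x|

lemma near_one : Near 1 (4 / 5) (4 / 3) := by
  intro x hx
  rw [F_one, abs_div]
  have h0 := abs_nonneg x
  have h1 : |x - 1| ≤ 5 / 4 := by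
    rw [abs_le] at hx ⊢; constructor <;> linarith [hx.1, hx.2]
  have h2 : 3 / 4 ≤ |x - 1| := by
    rw [abs_le] at hx
    rw [abs_sub_comm, le_abs]; left; linarith [hx.2]
  have h3 : 0 < |x - 1| := by linarith
  constructor
  · rw [le_div_iff₀ h3]; nlinarith
  · rw [div_le_iff₀ h3]; nlinarith

lemma near_mul {n p : ℕ} {c1 c2 e : ℝ} (hn : Odd n) (hp : p.Prime) (hpo : Odd p) (hdiv : ¬ p ∣ n)
    (hc2 : 0 ≤ c2) (he : (p : ℝ) * (1 / 4) ^ (p - 1) ≤ e) (hN : Near n c1 c2) :
    Near (n * p) (c1 - c2 * e) (c2 + c2 * e) := by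
  intro x hx
  have h0 := abs_nonneg x
  have hx1 : x ≠ 1 := by
    rintro rfl; norm_num at hx
  rw [F_mul_prime hn hp hpo hdiv hx1]
  have hpp : |x ^ p| = |x| * |x| ^ (p - 1) := by
    rw [abs_pow, ← pow_succ', Nat.sub_add_cancel hp.one_lt.le]
  have h1 : |x| ^ (p - 1) ≤ (1 / 4) ^ (p - 1) := pow_le_pow_left₀ h0 hx _
  have h2 : |x ^ p| ≤ |x| * (1 / 4) ^ (p - 1) := by rw [hpp]; gcongr
  have h3 : |x ^ p| ≤ 1 / 4 := by
    rw [hpp]
    have : |x| ^ (p - 1) ≤ 1 := pow_le_one₀ h0 (by linarith)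
    nlinarith
  obtain ⟨a1, a2⟩ := hN x hx
  obtain ⟨-, b2⟩ := hN (x ^ p) h3
  have h4 : |(p : ℝ) * F n (x ^ p)| ≤ c2 * e * |x| := by
    rw [abs_mul, abs_of_nonneg (Nat.cast_nonneg p : (0 : ℝ) ≤ p)]
    calc (p : ℝ) * |F n (x ^ p)| ≤ p * (c2 * (|x| * (1 / 4) ^ (p - 1))) := by
          have : |F n (x ^ p)| ≤ c2 * (|x| * (1 / 4) ^ (p - 1)) :=
            b2.trans (mul_le_mul_of_nonneg_left h2 hc2)
          exact mul_le_mul_of_nonneg_left this (Nat.cast_nonneg p)
      _ = c2 * |x| * (p * (1 / 4) ^ (p - 1)) := by ring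
      _ ≤ c2 * |x| * e := mul_le_mul_of_nonneg_left he (by positivity)
      _ = _ := by ring
  have h5 := abs_sub_abs_le_abs_sub (F n x) ((p : ℝ) * F n (x ^ p))
  have h6 := abs_sub (F n x) ((p : ℝ) * F n (x ^ p))
  rw [abs_sub_comm (F n x)] at h5 h6
  constructor
  · nlinarith
  · nlinarith

lemma near_deriv_zero {n : ℕ} (hn : Odd n) {c1 c2 : ℝ} (hc : 0 < c1) (hN : Near n c1 c2) {x : ℝ}
    (hx : |x| ≤ 1 / 4) : eval x (derivative (cyclotomic n ℝ)) ≠ 0 := by
  intro h0
  rcases eq_or_ne x 0 with rfl | hx0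
  · -- by continuity of the logarithmic derivative
    have hx1 : (0 : ℝ) ≠ 1 := by norm_num
    have hΦ := eval_cyc_ne_zero hn hx1
    have hcont : Filter.Tendsto (fun x : ℝ => |eval x (derivative (cyclotomic n ℝ)) /
        eval x (cyclotomic n ℝ)|) (nhdsWithin 0 {0}ᶜ) (nhds 0) := by
      have h1 : ContinuousAt (fun x : ℝ => |eval x (derivative (cyclotomic n ℝ)) /
        eval x (cyclotomic n ℝ)|) 0 :=
        ((Polynomial.continuous _).continuousAt.div (Polynomial.continuous _).continuousAt hΦ).abs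
      have h2 := h1.tendsto
      rw [h0, zero_div, abs_zero] at h2
      exact h2.mono_left nhdsWithin_le_nhds
    have hev : ∀ᶠ x : ℝ in nhdsWithin 0 {0}ᶜ, c1 ≤ |eval x (derivative (cyclotomic n ℝ)) /
        eval x (cyclotomic n ℝ)| := by
      have h3 : ∀ᶠ x : ℝ in nhdsWithin 0 {0}ᶜ, |x| ≤ 1 / 4 := by
        apply nhdsWithin_le_nhds
        have : Metric.closedBall (0 : ℝ) (1 / 4) ∈ nhds (0 : ℝ) :=
          Metric.closedBall_mem_nhds _ (by norm_num)
        filter_upwards [this] with y hy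
        simpa [Metric.mem_closedBall, Real.dist_eq] using hy
      filter_upwards [h3, self_mem_nhdsWithin] with y hy hy0
      have hy0' : 0 < |y| := abs_pos.2 hy0
      have := (hN y hy).1
      unfold F at this
      rw [abs_mul, mul_comm] at this
      exact le_of_mul_le_mul_left this hy0'
    have := ge_of_tendsto hcont hev
    linarith
  · have := (hN x hx).1
    unfold F at this
    rw [h0, zero_div, mul_zero, abs_zero] at this
    have : 0 < c1 * |x| := mul_pos hc (abs_pos.2 hx0)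
    linarith

/-- the value at `1` -/
lemma Good.deriv_one {l : List ℕ} (hl : Good l) (h2 : 2 < l.prod)
    (hlen : (plmi l).1.length = (plmi l).2.length) (hS : S (Mf 1) (plmi l) ≠ 0) :
    eval 1 (derivative (cyclotomic l.prod ℝ)) ≠ 0 := by
  intro h0
  apply hS
  have hq : OddL (plmi l) := odd_plmi l (fun p hp => (hl.pr p hp).2)
  have hΦ : eval (1 : ℝ) (cyclotomic l.prod ℝ) ≠ 0 := (cyclotomic_pos h2 1).ne'
  have hF : Filter.Tendsto (F l.prod) (nhdsWithin 1 (Set.Ico 0 1)) (nhds 0) := by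
    have h1 : ContinuousAt (F l.prod) 1 := by
      unfold F
      exact continuousAt_id.mul ((Polynomial.continuous _).continuousAt.div
        (Polynomial.continuous _).continuousAt hΦ)
    have h2 := h1.tendsto
    have h3 : F l.prod 1 = 0 := by unfold F; rw [h0]; simp
    rw [h3] at h2
    exact h2.mono_left nhdsWithin_le_nhds
  have hsum : ∀ m : List ℕ, (∀ d ∈ m, Odd d) → ContinuousAt (fun x => (m.map (Mf x)).sum) 1 := by
    intro m hm
    induction m with
    | nil => simpa using continuousAt_const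
    | cons d m ih =>
      simp only [List.map_cons, List.sum_cons]
      refine ContinuousAt.add ?_ (ih (fun e he => hm e (by simp [he])))
      unfold Mf
      apply ContinuousAt.div
      · fun_prop
      · fun_prop
      · exact (den_pos (hm d (by simp)).pos (by norm_num)).ne'
  have hM : Filter.Tendsto (fun x => S (Mf x) (plmi l)) (nhdsWithin 1 (Set.Ico 0 1))
      (nhds (S (Mf 1) (plmi l))) := by
    have : ContinuousAt (fun x => S (Mf x) (plmi l)) 1 := by
      unfold S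
      exact (hsum _ hq.1).sub (hsum _ hq.2)
    exact this.tendsto.mono_left nhdsWithin_le_nhds
  have hne : (nhdsWithin (1 : ℝ) (Set.Ico 0 1)).NeBot := by
    have : (nhdsWithin (1 : ℝ) (Set.Iio 1)).NeBot := inferInstance
    rw [nhdsWithin_Ico_eq_nhdsLT (by norm_num : (0 : ℝ) < 1)]
    exact this
  refine tendsto_nhds_unique hM (hF.congr' ?_)
  filter_upwards [self_mem_nhdsWithin] with x hx
  rw [hl.F_eq (ne_of_lt hx.2), S_g_eq hq hlen hx.1 hx.2]

/-! ### Lower bound for the number of roots -/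

lemma ivt {P : ℝ[X]} {a b e : ℝ} (hab : a < b) (h1 : 0 < e * eval a P)
    (h2 : 0 < (-e) * eval b P) : ∃ r, a < r ∧ r < b ∧ eval r P = 0 := by
  have hc : ContinuousOn (fun x => e * eval x P) (Set.Icc a b) := by fun_prop
  have h3 : (0 : ℝ) ∈ Set.Ioo (e * eval b P) (e * eval a P) := ⟨by linarith, h1⟩
  obtain ⟨r, hr, hr'⟩ := intermediate_value_Ioo' hab.le hc h3
  refine ⟨r, hr.1, hr.2, ?_⟩
  rcases mul_eq_zero.1 hr' with h | h
  · rw [h] at h1; simp at h1
  · exact h

lemma le_card_of_roots {P : ℝ[X]} (hP : P ≠ 0) (k : ℕ) (a b : Fin k → ℝ)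
    (hab : ∀ i j, i < j → b i ≤ a j) (hr : ∀ i, ∃ r, a i < r ∧ r < b i ∧ eval r P = 0) :
    k ≤ P.roots.card := by
  classical
  choose r h1 h2 h3 using hr
  have hmono : StrictMono r := by
    intro i j hij
    exact ((h2 i).trans_le (hab i j hij)).trans (h1 j)
  have hsub : Finset.univ.image r ⊆ P.roots.toFinset := by
    intro x hx
    rw [Finset.mem_image] at hx
    obtain ⟨i, -, rfl⟩ := hx
    rw [Multiset.mem_toFinset, mem_roots hP]
    exact h3 i
  have h4 := Finset.card_le_card hsub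
  rw [Finset.card_image_of_injective _ hmono.injective, Finset.card_univ, Fintype.card_fin] at h4
  exact h4.trans (Multiset.toFinset_card_le _)

lemma Good.sgn_pos {W SC : ℕ} (hWS : W = 2 ^ 40 * SC) (hW : (0 : ℝ) < W) {l : List ℕ}
    (hl : Good l) (hlp : 2 < l.prod) {q : List ℕ × List ℕ} (hqe : plmi l = q)
    (hlen : q.1.length = q.2.length) (s : Bool) (a : ℕ) (ha0 : 0 < a) (ha : a < 2 ^ 40)
    (h : chain SC (MLo W) (MHi W) okT W (cond s q q.swap) a [a] = true) :
    0 < (cond s 1 (-1) : ℝ) * eval ((a : ℝ) / 2 ^ 40) (derivative (cyclotomic l.prod ℝ)) := by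
  subst hqe
  have hq : OddL (plmi l) := odd_plmi l (fun p hp => (hl.pr p hp).2)
  have hx0 : 0 < (a : ℝ) / 2 ^ 40 := by positivity
  have hx1 : (a : ℝ) / 2 ^ 40 < 1 := by
    rw [div_lt_one (by positivity)]; exact_mod_cast ha
  have hF := hl.F_eq hx1.ne
  rw [S_g_eq hq hlen hx0.le hx1] at hF
  have hΦ := cyclotomic_pos hlp ((a : ℝ) / 2 ^ 40)
  have hval : eval ((a : ℝ) / 2 ^ 40) (derivative (cyclotomic l.prod ℝ)) =
      S (Mf ((a : ℝ) / 2 ^ 40)) (plmi l) * (eval ((a : ℝ) / 2 ^ 40) (cyclotomic l.prod ℝ) /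
        ((a : ℝ) / 2 ^ 40)) := by
    rw [← hF]; unfold F
    have := hΦ.ne'
    have := hx0.ne'
    field_simp
  rw [hval]
  have hpos : 0 < eval ((a : ℝ) / 2 ^ 40) (cyclotomic l.prod ℝ) / ((a : ℝ) / 2 ^ 40) :=
    div_pos hΦ hx0
  cases s
  · have := (kitM hW).chain_sound hWS (q := (plmi l).swap) ⟨hq.2, hq.1⟩ a [a] (by simp) h
      (le_refl _) (le_refl _)
    rw [S_swap] at this
    have := mul_pos this hpos
    simp only [cond_false]
    linarith
  · have := (kitM hW).chain_sound hWS hq a [a] (by simp) h (le_refl _) (le_refl _)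
    have := mul_pos this hpos
    simp only [cond_true]
    linarith

lemma Good.sgn_neg {W SC : ℕ} (hWS : W = 2 ^ 40 * SC) (hW : (0 : ℝ) < W) {l : List ℕ}
    (hl : Good l) (hlp : 2 < l.prod) {q : List ℕ × List ℕ} (hqe : plmi l = q)
    (s : Bool) (a : ℕ) (ha0 : 0 < a)
    (h : chain SC (VLo W) (VHi W) okT W (cond s q.swap q) a [a] = true) :
    0 < (cond s 1 (-1) : ℝ) * eval (-((a : ℝ) / 2 ^ 40)) (derivative (cyclotomic l.prod ℝ)) := by
  subst hqe
  have hq : OddL (plmi l) := odd_plmi l (fun p hp => (hl.pr p hp).2)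
  have hx0 : 0 < (a : ℝ) / 2 ^ 40 := by positivity
  have hF := hl.F_eq (x := -((a : ℝ) / 2 ^ 40)) (by linarith)
  rw [S_g_neg hq] at hF
  have hΦ := cyclotomic_pos hlp (-((a : ℝ) / 2 ^ 40))
  have hval : eval (-((a : ℝ) / 2 ^ 40)) (derivative (cyclotomic l.prod ℝ)) =
      -(S (vf ((a : ℝ) / 2 ^ 40)) (plmi l) * (eval (-((a : ℝ) / 2 ^ 40)) (cyclotomic l.prod ℝ) /
        ((a : ℝ) / 2 ^ 40))) := by
    rw [← hF]; unfold F
    have := hΦ.ne'
    have := hx0.ne'
    field_simp
  rw [hval]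
  have hpos : 0 < eval (-((a : ℝ) / 2 ^ 40)) (cyclotomic l.prod ℝ) / ((a : ℝ) / 2 ^ 40) :=
    div_pos hΦ hx0
  cases s
  · have := (kitV hW).chain_sound hWS hq a [a] (by simp) h (le_refl _) (le_refl _)
    have := mul_pos this hpos
    simp only [cond_false]
    linarith
  · have := (kitV hW).chain_sound hWS (q := (plmi l).swap) ⟨hq.2, hq.1⟩ a [a] (by simp) h
      (le_refl _) (le_refl _)
    rw [S_swap] at this
    have := mul_pos this hpos
    simp only [cond_true]
    linarith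

end Pool.Agent.helper82.Cyc
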